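import Pool.Agent.Helper95.AF.Defs
import Pool.Agent.Helper82.AN.Lap

/-! # Project AF: concentration of the measure of the exceptional set of base points -/

set_option autoImplicit false
open MeasureTheory Real Set Filter Topology
open scoped ENNReal

namespace Pool.Agent.Helper33.AF

open Pool.Agent.Helper46.QP (TT Td)
open Pool.Agent.Helper82.AN (Ik Ow lawL)

section general

variable {Ω T : Type*} [MeasurableSpace Ω] [MeasurableSpace T] [AddGroup T] [MeasurableAdd T]
  {P : Measure Ω} [IsProbabilityMeasure P] {μ : Measure T} [IsProbabilityMeasure μ]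
  [μ.IsAddRightInvariant]

lemma jensen {A : Set T} (hA : MeasurableSet A) {M : ℕ} {Q : ℝ} (hQ : 1 ≤ Q) (β : Fin M → T) :
    ENNReal.ofReal (Real.exp (M * μ.real A * Real.log Q)) ≤
      ∫⁻ θ, ∏ l, (1 + ENNReal.ofReal Q * A.indicator 1 (θ + β l)) ∂μ := by
  classical
  have hlog : 0 ≤ Real.log Q := Real.log_nonneg hQ
  have hmeas : ∀ l, Measurable fun θ : T => A.indicator (fun _ => (1 : ℝ)) (θ + β l) := fun l =>
    (measurable_const.indicator hA).comp (measurable_add_const _)
  have hbd : ∀ l θ, ‖A.indicator (fun _ => (1 : ℝ)) (θ + β l)‖ ≤ 1 := fun l θ => by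
    by_cases h : θ + β l ∈ A
    · simp [Set.indicator_of_mem h]
    · simp [Set.indicator_of_notMem h]
  have hint : ∀ l, Integrable (fun θ : T => A.indicator (fun _ => (1 : ℝ)) (θ + β l)) μ := fun l =>
    Integrable.of_bound (hmeas l).aestronglyMeasurable 1 (ae_of_all _ (hbd l))
  have hval : ∀ l, ∫ θ, A.indicator (fun _ => (1 : ℝ)) (θ + β l) ∂μ = μ.real A := by
    intro l
    rw [integral_add_right_eq_self (μ := μ) (fun θ => A.indicator (fun _ => (1 : ℝ)) θ) (β l)]
    rw [integral_indicator hA]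
    simp
  set f : T → ℝ := fun θ => Real.log Q * ∑ l, A.indicator (fun _ => (1 : ℝ)) (θ + β l) with hf
  have hfm : Measurable f := (Finset.measurable_sum _ fun l _ => hmeas l).const_mul _
  have hfi : Integrable f μ := (integrable_finsetSum _ fun l _ => hint l).const_mul _
  have hfv : ∫ θ, f θ ∂μ = M * μ.real A * Real.log Q := by
    rw [hf, integral_const_mul, integral_finsetSum _ fun l _ => hint l]
    simp only [hval, Finset.sum_const, Finset.card_univ, Fintype.card_fin, nsmul_eq_mul]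
    ring
  have hfb : ∀ θ, f θ ≤ Real.log Q * M := by
    intro θ
    refine mul_le_mul_of_nonneg_left ?_ hlog
    calc ∑ l, A.indicator (fun _ => (1 : ℝ)) (θ + β l) ≤ ∑ _l : Fin M, (1 : ℝ) :=
          Finset.sum_le_sum fun l _ => (le_abs_self _).trans (hbd l θ)
      _ = M := by simp
  have hei : Integrable (fun θ => Real.exp (f θ)) μ := by
    refine Integrable.of_bound hfm.exp.aestronglyMeasurable (Real.exp (Real.log Q * M))
      (ae_of_all _ fun θ => ?_)
    rw [Real.norm_eq_abs, abs_of_pos (Real.exp_pos _)]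
    exact Real.exp_le_exp.mpr (hfb θ)
  have h1 : Real.exp (∫ θ, f θ ∂μ) ≤ ∫ θ, Real.exp (f θ) ∂μ :=
    convexOn_exp.map_integral_le Real.continuous_exp.continuousOn isClosed_univ
      (ae_of_all _ fun _ => mem_univ _) hfi hei
  rw [hfv] at h1
  refine (ENNReal.ofReal_le_ofReal h1).trans ?_
  rw [ofReal_integral_eq_lintegral_ofReal hei (ae_of_all _ fun _ => (Real.exp_pos _).le)]
  refine lintegral_mono fun θ => ?_
  simp only [hf, Finset.mul_sum, Real.exp_sum]
  rw [ENNReal.ofReal_prod_of_nonneg fun _ _ => (Real.exp_pos _).le]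
  refine Finset.prod_le_prod' fun l _ => ?_
  by_cases h : θ + β l ∈ A
  · rw [Set.indicator_of_mem h, Set.indicator_of_mem h, mul_one, Pi.one_apply, mul_one,
      Real.exp_log (by linarith)]
    exact le_add_self
  · rw [Set.indicator_of_notMem h, Set.indicator_of_notMem h, mul_zero, mul_zero, Real.exp_zero,
      ENNReal.ofReal_one, add_zero]

theorem conc_gen {D : Set (Ω × T)} (hD : MeasurableSet D) {M : ℕ} {Q : ℝ} (hQ : 1 ≤ Q)
    {B : ℝ≥0∞} {β : Fin M → T}
    (h : ∀ θ : T, ∫⁻ w, ∏ l, (1 + ENNReal.ofReal Q * {w : Ω | (w, θ + β l) ∈ D}.indicator 1 w) ∂P ≤ B)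
    (κ : ℝ) :
    P {w | κ ≤ μ.real {θ | (w, θ) ∈ D}} ≤ B * ENNReal.ofReal (Real.exp (-(M * κ * Real.log Q))) := by
  classical
  have hlog : 0 ≤ Real.log Q := Real.log_nonneg hQ
  set F : Ω → ℝ≥0∞ := fun w =>
    ENNReal.ofReal (Real.exp (M * μ.real {θ | (w, θ) ∈ D} * Real.log Q)) with hF
  have hmr : Measurable fun w => μ.real {θ | (w, θ) ∈ D} :=
    (measurable_measure_prodMk_left hD).ennreal_toReal
  have hFm : Measurable F := by
    refine Measurable.ennreal_ofReal (Real.measurable_exp.comp ?_)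
    exact (hmr.const_mul _).mul_const _
  have hGm : Measurable (Function.uncurry fun (w : Ω) (θ : T) =>
      ∏ l, (1 + ENNReal.ofReal Q * {w : Ω | (w, θ + β l) ∈ D}.indicator (1 : Ω → ℝ≥0∞) w)) := by
    refine Finset.measurable_prod _ fun l _ => ?_
    refine Measurable.const_add (Measurable.const_mul ?_ _) _
    have h1 : (fun p : Ω × T => {w : Ω | (w, p.2 + β l) ∈ D}.indicator (1 : Ω → ℝ≥0∞) p.1) =
        fun p => D.indicator (1 : Ω × T → ℝ≥0∞) (p.1, p.2 + β l) := by
      funext p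
      by_cases hp : (p.1, p.2 + β l) ∈ D
      · rw [Set.indicator_of_mem hp, Set.indicator_of_mem (show p.1 ∈ {w : Ω | (w, p.2 + β l) ∈ D} from hp)]
        rfl
      · rw [Set.indicator_of_notMem hp,
          Set.indicator_of_notMem (show p.1 ∉ {w : Ω | (w, p.2 + β l) ∈ D} from hp)]
    change Measurable fun p : Ω × T => {w : Ω | (w, p.2 + β l) ∈ D}.indicator (1 : Ω → ℝ≥0∞) p.1
    rw [h1]
    exact (measurable_one.indicator hD).comp
      (measurable_fst.prodMk ((measurable_add_const (β l)).comp measurable_snd))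
  have h1 : ∫⁻ w, F w ∂P ≤ B := by
    calc ∫⁻ w, F w ∂P ≤ ∫⁻ w, ∫⁻ θ, ∏ l, (1 + ENNReal.ofReal Q *
          {w : Ω | (w, θ + β l) ∈ D}.indicator 1 w) ∂μ ∂P := by
          refine lintegral_mono fun w => ?_
          refine (jensen (μ := μ) (measurable_prodMk_left hD : MeasurableSet {θ | (w, θ) ∈ D}) hQ
            β).trans (lintegral_mono fun θ => le_of_eq ?_)
          refine Finset.prod_congr rfl fun l _ => ?_
          congr 2
      _ = ∫⁻ θ, ∫⁻ w, ∏ l, (1 + ENNReal.ofReal Q *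
          {w : Ω | (w, θ + β l) ∈ D}.indicator 1 w) ∂P ∂μ :=
          lintegral_lintegral_swap hGm.aemeasurable
      _ ≤ ∫⁻ _θ, B ∂μ := lintegral_mono fun θ => h θ
      _ = B := by simp
  set c : ℝ≥0∞ := ENNReal.ofReal (Real.exp (M * κ * Real.log Q)) with hc
  have hc0 : c ≠ 0 := by
    rw [hc, Ne, ENNReal.ofReal_eq_zero, not_le]
    exact Real.exp_pos _
  have hct : c ≠ ∞ := ENNReal.ofReal_ne_top
  have h2 : {w | κ ≤ μ.real {θ | (w, θ) ∈ D}} ⊆ {w | c ≤ F w} := by
    intro w hw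
    refine ENNReal.ofReal_le_ofReal (Real.exp_le_exp.mpr ?_)
    exact mul_le_mul_of_nonneg_right (mul_le_mul_of_nonneg_left hw (Nat.cast_nonneg _)) hlog
  have h3 : P {w | c ≤ F w} ≤ (∫⁻ w, F w ∂P) / c := meas_ge_le_lintegral_div hFm.aemeasurable hc0 hct
  have h4 : ENNReal.ofReal (Real.exp (-(M * κ * Real.log Q))) = c⁻¹ := by
    rw [hc, ← ENNReal.ofReal_inv_of_pos (Real.exp_pos _), Real.exp_neg]
  rw [h4, ← ENNReal.div_eq_inv_mul.trans (mul_comm _ _)]
  exact (measure_mono h2).trans (h3.trans (ENNReal.div_le_div_right h1 c))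

end general

variable {d : ℕ}

/-- **CC**: concentration of the measure of the exceptional set of base points -/
theorem conc {D : Set (Ow d × Td d)} (hD : MeasurableSet D) {M : ℕ} {Q : ℝ} (hQ : 1 ≤ Q) {B : ℝ≥0∞} {β : Fin M → Td d}
    (h : ∀ θ : Td d, ∫⁻ w, ∏ l, (1 + ENNReal.ofReal Q * {w : Ow d | (w, θ + β l) ∈ D}.indicator 1 w) ∂lawL d ≤ B) (κ : ℝ) :
    lawL d {w | κ ≤ volume.real {θ | (w, θ) ∈ D}} ≤ B * ENNReal.ofReal (Real.exp (-(M * κ * Real.log Q))) := by
  exact conc_gen hD hQ h κ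

end Pool.Agent.Helper33.AF
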