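import Pool.Agent.Helper95.AF.Defs
import Pool.Agent.Helper6.AF.RR
import Pool.Agent.Helper4.AF.Meas

/-! # Project AF: the mean of the functional -/

set_option autoImplicit false
open MeasureTheory Real Set Filter Topology
open scoped ENNReal

namespace Pool.Agent.Helper33.AF

open Pool.Agent.Helper46.QP (TT Td)
open Pool.Agent.Helper82.AN (Ik Ow lawL sq)
open Pool.Agent.Helper95.AF

variable {d : ℕ}

lemma shb_sq (α : Td d) (b : Td d → ℝ) (θ : Td d) (m : ℕ) :
    shb (sq α b θ) m = sq α b (θ + m • α) := by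
  funext j
  change b (θ + (j + m) • α) = b (θ + m • α + j • α)
  congr 1
  rw [add_smul]
  abel

lemma measurable_sq {α : Td d} {b : Td d → ℝ} (hb : Continuous b) : Measurable (sq α b) := by
  refine measurable_pi_lambda _ fun j => ?_
  exact (hb.comp (continuous_id.add continuous_const)).measurable

lemma et_pos (i : ℕ) : 0 < et i := by
  unfold et
  positivity

/-- One level. -/
lemma level_step {α : Td d} {a L : ℝ} {b : Td d → ℝ} (hb : Continuous b) (hL : 0 < L)
    {n J : ℕ} (i : ℕ)
    (h1 : volume.real {θ | sq α b θ ∈ EvS a L i n J 0} ≤ et (i + 1)) :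
    J * (∫ θ, Rl a L i n (sq α b θ)) - et i * (J * (n + 5) : ℕ) * L -
      et (i + 1) * (2 * (J * (n + 5) : ℕ) * L) ≤
        ∫ θ, Rl a L (i + 1) (J * (n + 5)) (sq α b θ) := by
  have hmeas : ∀ (i n : ℕ), Measurable fun θ : Td d => Rl a L i n (sq α b θ) := fun i n =>
    (Pool.Agent.Helper4.AF.rr_meas a n (by positivity) (by positivity)).comp (measurable_sq hb)
  have hR : ∀ (i n : ℕ) (c : ℕ → ℝ), 0 ≤ Rl a L i n c ∧ Rl a L i n c ≤ 2 * n * L := fun i n c => by
    have h := Pool.Agent.Helper6.AF.rr_mem (a := a) (n := n) (ρ := Real.exp (-(pp i * n * L)))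
      (δ := Real.exp (-(2 * pp i * n * L))) (cap := 2 * n * L) (by positivity) (by positivity) c
    exact ⟨h.1, h.2.1⟩
  have hint : ∀ (i n : ℕ), Integrable (fun θ : Td d => Rl a L i n (sq α b θ)) volume := fun i n =>
    Integrable.of_bound (hmeas i n).aestronglyMeasurable (2 * n * L) (ae_of_all _ fun θ => by
      rw [Real.norm_eq_abs, abs_of_nonneg (hR i n _).1]
      exact (hR i n _).2)
  have hshift : ∀ m : ℕ, ∫ θ, Rl a L i n (sq α b (θ + m • α)) = ∫ θ, Rl a L i n (sq α b θ) :=
    fun m => integral_add_right_eq_self (μ := (volume : Measure (Td d)))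
      (fun θ => Rl a L i n (sq α b θ)) (m • α)
  have hintm : ∀ m : ℕ, Integrable (fun θ : Td d => Rl a L i n (sq α b (θ + m • α))) volume :=
    fun m => (hint i n).comp_add_right (m • α)
  set S : Set (Td d) := {θ | sq α b θ ∈ EvS a L i n J 0} with hS
  set N : ℕ := J * (n + 5) with hN
  have hsum : ∀ θ : Td d, (∑ j ∈ Finset.range J, Rl a L i n (shb (sq α b θ) (j * (n + 5) + 5))) =
      ∑ j ∈ Finset.range J, Rl a L i n (sq α b (θ + (j * (n + 5) + 5) • α)) := fun θ =>
    Finset.sum_congr rfl fun j _ => by rw [shb_sq]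
  have hSm : MeasurableSet S := by
    have h2 : S = {θ | Rl a L (i + 1) N (sq α b θ) <
        (∑ j ∈ Finset.range J, Rl a L i n (sq α b (θ + (j * (n + 5) + 5) • α))) -
          et i * (N : ℕ) * L - 0} := by
      ext θ
      change Rl a L (i + 1) N (sq α b θ) <
          (∑ j ∈ Finset.range J, Rl a L i n (shb (sq α b θ) (j * (n + 5) + 5))) -
            et i * (N : ℕ) * L - 0 ↔ _
      rw [hsum]
      rfl
    rw [h2]
    refine measurableSet_lt (hmeas _ _) ?_
    refine ((Finset.measurable_sum _ fun j _ => ?_).sub_const _).sub_const _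
    exact (hmeas i n).comp (measurable_add_const _)
  -- pointwise
  have hpt : ∀ θ : Td d, (∑ j ∈ Finset.range J, Rl a L i n (sq α b (θ + (j * (n + 5) + 5) • α))) -
      et i * (N : ℕ) * L - S.indicator (fun _ => 2 * (N : ℝ) * L) θ ≤
        Rl a L (i + 1) N (sq α b θ) := by
    intro θ
    have het := et_pos i
    by_cases hθ : θ ∈ S
    · rw [Set.indicator_of_mem hθ]
      have h2 : (∑ j ∈ Finset.range J, Rl a L i n (sq α b (θ + (j * (n + 5) + 5) • α))) ≤
          2 * (N : ℝ) * L := by
        calc (∑ j ∈ Finset.range J, Rl a L i n (sq α b (θ + (j * (n + 5) + 5) • α)))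
            ≤ ∑ _j ∈ Finset.range J, 2 * (n : ℝ) * L := Finset.sum_le_sum fun j _ => (hR i n _).2
          _ = J * (2 * (n : ℝ) * L) := by simp
          _ ≤ 2 * (N : ℝ) * L := by
              rw [hN]
              push_cast
              have : 0 ≤ (J : ℝ) * L := by positivity
              nlinarith
      have h3 := (hR (i + 1) N (sq α b θ)).1
      have h4 : 0 ≤ et i * (N : ℕ) * L := by positivity
      linarith
    · rw [Set.indicator_of_notMem hθ]
      have h2 : ¬ Rl a L (i + 1) N (sq α b θ) <
          (∑ j ∈ Finset.range J, Rl a L i n (shb (sq α b θ) (j * (n + 5) + 5))) -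
            et i * (N : ℕ) * L - 0 := hθ
      rw [hsum, not_lt] at h2
      linarith
  have hli : Integrable (fun θ : Td d =>
      (∑ j ∈ Finset.range J, Rl a L i n (sq α b (θ + (j * (n + 5) + 5) • α))) -
        et i * (N : ℕ) * L - S.indicator (fun _ => 2 * (N : ℝ) * L) θ) volume :=
    ((integrable_finsetSum _ fun j _ => hintm _).sub (integrable_const _)).sub
      ((integrable_const _).indicator hSm)
  have h5 := integral_mono hli (hint (i + 1) N) hpt
  have h6 : ∫ θ : Td d, ((∑ j ∈ Finset.range J, Rl a L i n (sq α b (θ + (j * (n + 5) + 5) • α))) -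
      et i * (N : ℕ) * L - S.indicator (fun _ => 2 * (N : ℝ) * L) θ) =
      J * (∫ θ, Rl a L i n (sq α b θ)) - et i * N * L - volume.real S * (2 * N * L) := by
    have g1 : Integrable (fun θ : Td d => ∑ j ∈ Finset.range J,
        Rl a L i n (sq α b (θ + (j * (n + 5) + 5) • α))) volume :=
      integrable_finsetSum _ fun j _ => hintm _
    have g2 : Integrable (fun θ : Td d => (∑ j ∈ Finset.range J,
        Rl a L i n (sq α b (θ + (j * (n + 5) + 5) • α))) - et i * (N : ℕ) * L) volume :=
      g1.sub (integrable_const _)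
    rw [integral_sub g2 ((integrable_const _).indicator hSm),
      integral_sub g1 (integrable_const _),
      integral_finsetSum _ fun j _ => hintm _, integral_indicator hSm]
    simp only [hshift, Finset.sum_const, Finset.card_range, nsmul_eq_mul, integral_const,
      smul_eq_mul, probReal_univ, one_mul, measureReal_restrict_apply_univ]
  rw [h6] at h5
  refine le_trans ?_ h5
  have h7 : volume.real S * (2 * N * L) ≤ et (i + 1) * (2 * (N : ℝ) * L) :=
    mul_le_mul_of_nonneg_right h1 (by positivity)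
  linarith

theorem rec_mean {α : Td d} {a L : ℝ} {b : Td d → ℝ} (hb : Continuous b) (hL : 0 < L)
    {n J : ℕ → ℕ}
    (hn : ∀ i, 1 ≤ J i ∧ n (i + 1) = J i * (n i + 5)) (hn0 : ∀ i, (10000 * 2 ^ i : ℝ) ≤ n i)
    (h0 : volume.real {θ | sq α b θ ∈ Ev0 a L (n 0) 0} ≤ et 0)
    (h1 : ∀ i, volume.real {θ | sq α b θ ∈ EvS a L i (n i) (J i) 0} ≤ et (i + 1)) (i : ℕ) :
    (24 / 25) * n i * L ≤ ∫ θ, Rl a L i (n i) (sq α b θ) := by
  have hmeas : ∀ (i n : ℕ), Measurable fun θ : Td d => Rl a L i n (sq α b θ) := fun i n =>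
    (Pool.Agent.Helper4.AF.rr_meas a n (by positivity) (by positivity)).comp (measurable_sq hb)
  have hR : ∀ (i n : ℕ) (c : ℕ → ℝ), 0 ≤ Rl a L i n c ∧ Rl a L i n c ≤ 2 * n * L := fun i n c => by
    have h := Pool.Agent.Helper6.AF.rr_mem (a := a) (n := n) (ρ := Real.exp (-(pp i * n * L)))
      (δ := Real.exp (-(2 * pp i * n * L))) (cap := 2 * n * L) (by positivity) (by positivity) c
    exact ⟨h.1, h.2.1⟩
  have hint : ∀ (i n : ℕ), Integrable (fun θ : Td d => Rl a L i n (sq α b θ)) volume := fun i n =>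
    Integrable.of_bound (hmeas i n).aestronglyMeasurable (2 * n * L) (ae_of_all _ fun θ => by
      rw [Real.norm_eq_abs, abs_of_nonneg (hR i n _).1]
      exact (hR i n _).2)
  have hub : ∀ i, ∫ θ, Rl a L i (n i) (sq α b θ) ≤ 2 * n i * L := fun i => by
    calc ∫ θ, Rl a L i (n i) (sq α b θ) ≤ ∫ _θ : Td d, (2 * (n i : ℝ) * L) :=
          integral_mono (hint _ _) (integrable_const _) fun θ => (hR _ _ _).2
      _ = 2 * n i * L := by simp
  have hnpos : ∀ i, (0 : ℝ) < n i := fun i => lt_of_lt_of_le (by positivity) (hn0 i)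
  -- the base level
  have hbase : (1 - et 0) ^ 2 * (n 0 : ℝ) * L ≤ ∫ θ, Rl a L 0 (n 0) (sq α b θ) := by
    set S : Set (Td d) := {θ | sq α b θ ∈ Ev0 a L (n 0) 0} with hS
    have hSm : MeasurableSet S := by
      have h2 : S = {θ | Rl a L 0 (n 0) (sq α b θ) < (1 - et 0) * n 0 * L - 0} := rfl
      rw [h2]
      exact measurableSet_lt (hmeas _ _) measurable_const
    have het : et 0 = 1 / 200 := by
      unfold et
      norm_num
    have hpt : ∀ θ : Td d, (1 - et 0) * (n 0 : ℝ) * L - S.indicator (fun _ =>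
        (1 - et 0) * (n 0 : ℝ) * L) θ ≤ Rl a L 0 (n 0) (sq α b θ) := by
      intro θ
      by_cases hθ : θ ∈ S
      · rw [Set.indicator_of_mem hθ, sub_self]
        exact (hR _ _ _).1
      · rw [Set.indicator_of_notMem hθ]
        have h2 : ¬ Rl a L 0 (n 0) (sq α b θ) < (1 - et 0) * n 0 * L - 0 := hθ
        rw [not_lt] at h2
        linarith
    have h5 : ∫ θ : Td d, ((1 - et 0) * (n 0 : ℝ) * L - S.indicator (fun _ =>
        (1 - et 0) * (n 0 : ℝ) * L) θ) ≤ ∫ θ, Rl a L 0 (n 0) (sq α b θ) :=
      integral_mono ((integrable_const _).sub ((integrable_const _).indicator hSm))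
        (hint 0 (n 0)) hpt
    have h6 : ∫ θ : Td d, ((1 - et 0) * (n 0 : ℝ) * L - S.indicator (fun _ =>
        (1 - et 0) * (n 0 : ℝ) * L) θ) =
        (1 - et 0) * (n 0 : ℝ) * L - volume.real S * ((1 - et 0) * (n 0 : ℝ) * L) := by
      rw [integral_sub (integrable_const _) ((integrable_const _).indicator hSm),
        integral_indicator hSm]
      simp only [integral_const, smul_eq_mul, probReal_univ, one_mul,
        measureReal_restrict_apply_univ]
    rw [h6] at h5
    refine le_trans ?_ h5
    have h8 : 0 ≤ (1 - et 0) * (n 0 : ℝ) * L := by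
      rw [het]
      have := hnpos 0
      positivity
    nlinarith [mul_le_mul_of_nonneg_right h0 h8]
  -- all levels
  have key : ∀ i, (99 / 100 - 11 / 500 * (1 - 1 / 2 ^ i)) * (n i : ℝ) * L ≤
      ∫ θ, Rl a L i (n i) (sq α b θ) := by
    intro i
    induction i with
    | zero =>
      refine le_trans ?_ hbase
      have het : et 0 = 1 / 200 := by
        unfold et
        norm_num
      rw [het]
      have h2 : 0 ≤ (n 0 : ℝ) * L := by
        have := hnpos 0
        positivity
      nlinarith
    | succ i ih =>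
      have h2 := level_step hb hL i (h1 i)
      rw [← (hn i).2] at h2
      refine le_trans ?_ h2
      have hJ : ((n (i + 1) : ℕ) : ℝ) = J i * (n i + 5) := by
        rw [(hn i).2]
        push_cast
        ring
      have hJ1 : (1 : ℝ) ≤ J i := by exact_mod_cast (hn i).1
      set I := ∫ θ, Rl a L i (n i) (sq α b θ) with hI
      have hub' := hub i
      have e1 : et i = 1 / (200 * 2 ^ i) := rfl
      have e2 : et (i + 1) = 1 / (200 * 2 ^ (i + 1)) := rfl
      set t : ℝ := 1 / 2 ^ i with ht
      have ht0 : 0 < t := by positivity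
      have ht1 : t ≤ 1 := by
        rw [ht, div_le_one (by positivity)]
        exact one_le_pow₀ (by norm_num)
      have e3 : et i = t / 200 := by
        rw [e1, ht]
        field_simp
      have e4 : et (i + 1) = t / 400 := by
        rw [e2, ht, pow_succ]
        field_simp
        norm_num
      have e5 : (1 : ℝ) / 2 ^ (i + 1) = t / 2 := by
        rw [ht, pow_succ]
        field_simp
      have e6 : 10000 ≤ t * n i := by
        have h3 := hn0 i
        rw [ht, div_mul_eq_mul_div, one_mul, le_div_iff₀ (by positivity)]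
        exact h3
      rw [e3, e4, e5, hJ]
      have hni := hnpos i
      -- with `m = n i`, divide by `J i * L`
      have h4 : (99 / 100 - 11 / 500 * (1 - t / 2)) * ((n i : ℝ) + 5) * L ≤
          I - t / 200 * (n i + 5) * L - t / 400 * (2 * (n i + 5) * L) := by
        have h5 : 0 ≤ (n i : ℝ) * L := by positivity
        have h6 : 5 * L ≤ t / 2000 * (n i : ℝ) * L := by nlinarith
        nlinarith
      have h7 := mul_le_mul_of_nonneg_left h4 (by positivity : (0 : ℝ) ≤ J i)
      nlinarith
  refine le_trans ?_ (key i)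
  have h2 : (0 : ℝ) < 1 / 2 ^ i := by positivity
  have h3 : 0 ≤ (n i : ℝ) * L := by
    have := hnpos i
    positivity
  nlinarith

end Pool.Agent.Helper33.AF
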